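import Pool.Agent.Q280.LF.Supp
import Pool.Agent.H297R2.InBakerThm
import Pool.Agent.H297R2.Density

/-!
# The primes with algebraically dependent logarithms and the smallest field over which the logarithms are free

Let `𝓛` be the space of all linear combinations of `1` and of logarithms of primes, with algebraic coefficients.  A
subfield `F` of `ℂ`, algebraically closed in `ℂ`, is called *free* if any elements of `𝓛` which are linearly independent
over the algebraic numbers modulo `F` are algebraically independent over `F`.  Let `P₀` be the set of all primes `p`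
such that `log p` is algebraic over the field generated by the logarithms of the other primes.  We prove, unconditionally:

1. There is a smallest free field `F₀`.
2. `P₀` is the support of `F₀ ∩ 𝓛`: it is the smallest set `P` of primes such that all elements of `F₀ ∩ 𝓛` are linear
   combinations of `1` and of the numbers `log p`, `p ∈ P`.
3. The logarithms of distinct primes are always algebraically independent if and only if `F₀` is the field of
   algebraic numbers, if and only if `P₀` is empty.  This holds up to a bounded error if and only if `F₀ ∩ 𝓛` is finite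
   dimensional, if and only if `P₀` is finite.
4. `F₀` is also the smallest field `F`, algebraically closed in `ℂ`, such that the locus over `F` of every point `x` of
   `𝓛 ^ n` is a translate `b + H` of a linear space `H` which is defined over the algebraic numbers,
   `b ∈ (F ∩ 𝓛) ^ n`.
5. `F₀` is algebraic over the field generated by `F₀ ∩ 𝓛`, and stable under complex conjugation.  An element `x` of
   `𝓛` belongs to `F₀` if and only if it is algebraic over the field generated by each complementary hyperplane of `𝓛`.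
6. If `x_1, x_2` and also `y_1, y_2` are linearly independent over the algebraic numbers and all `x_i y_j` are in `𝓛`,
   then all `x_i y_j` are in `F₀`, so that only primes of `P₀` occur in them.
-/

set_option autoImplicit false

open Matroid Set Module Pool.Agent.Q280.LF

namespace Pool.Agent.Results.MP_d171e3_nt.DependentPrimes

/-- the logarithm of `p`, as a complex number -/
noncomputable def lg (p : ℕ) : ℂ := (Real.log (p : ℝ) : ℂ)

/-- All linear combinations of `1` and of the logarithms of the elements of `P`, with algebraic coefficients. -/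
noncomputable def Forms (P : Set ℕ) : Submodule (algebraicClosure ℚ ℂ) ℂ :=
  Submodule.span (algebraicClosure ℚ ℂ) ({1} ∪ {z : ℂ | ∃ p ∈ P, z = lg p})

/-- All linear combinations of `1` and of the logarithms of primes, with algebraic coefficients. -/
noncomputable def LinForms : Submodule (algebraicClosure ℚ ℂ) ℂ := Forms {p | p.Prime}

/-- `F` is algebraically closed in the field of complex numbers. -/
def Closed (F : IntermediateField ℚ ℂ) : Prop := ∀ z : ℂ, IsAlgebraic F z → z ∈ F

/-- Elements of `LinForms` which are linearly independent over the algebraic numbers modulo `F` are algebraically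
independent over `F`. -/
def FreeOver (F : IntermediateField ℚ ℂ) : Prop :=
  ∀ (n : ℕ) (x : Fin n → ℂ), (∀ i, x i ∈ LinForms) →
    (∀ c : Fin n → algebraicClosure ℚ ℂ, ∑ i, c i • x i ∈ F → c = 0) → AlgebraicIndependent F x

/-- The locus over `F` of every point with coordinates in `LinForms` is a translate `b + H`, with `b` in `F` and in
`LinForms`, of a linear space `H` with algebraic coefficients (spanned by the vectors `a j`). -/
def LinearLoci (F : IntermediateField ℚ ℂ) : Prop :=
  ∀ (n : ℕ) (x : Fin n → ℂ), (∀ i, x i ∈ LinForms) →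
    ∃ (k : ℕ) (b : Fin n → F) (a : Fin k → Fin n → algebraicClosure ℚ ℂ) (y : Fin k → ℂ),
      (∀ i, (b i : ℂ) ∈ LinForms) ∧ (∀ j, y j ∈ LinForms) ∧ (∀ i, x i = b i + ∑ j, a j i • y j) ∧
      ∀ q : MvPolynomial (Fin n) F, MvPolynomial.aeval x q = 0 →
        ∀ t : Fin k → ℂ, MvPolynomial.aeval (fun i => (b i : ℂ) + ∑ j, a j i • t j) q = 0

/-- The primes `p` for which `log p` is algebraic over the field generated by the logarithms of the other primes. -/
def DepPrimes : Set ℕ :=
  {p | p.Prime ∧ IsAlgebraic
    (IntermediateField.adjoin ℚ {z : ℂ | ∃ q : ℕ, q.Prime ∧ q ≠ p ∧ z = lg q}) (lg p)}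

/-- The conjecture (the frozen statement). -/
def PrimeLogConjecture : Prop :=
  ∀ (m : ℕ) (p : Fin m → ℕ), Function.Injective p → (∀ i, (p i).Prime) →
    AlgebraicIndependent ℚ (fun i : Fin m => Real.log ((p i : ℕ) : ℝ))

/-- The conjecture with a bounded error. -/
def PrimeLogConjectureBounded : Prop :=
  ∃ C : ℕ, ∀ (m : ℕ) (p : Fin m → ℕ), Function.Injective p → (∀ i, (p i).Prime) →
    ∃ w : Fin (m - C) → ℂ, (∀ i, w i ∈ IntermediateField.adjoin ℚ (range fun i : Fin m => lg (p i))) ∧
      AlgebraicIndependent ℚ w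

/-- The elements of `F` in `LinForms`, as a space over the algebraic numbers. -/
noncomputable def inter (F : IntermediateField ℚ ℂ) : Submodule (algebraicClosure ℚ ℂ) ℂ :=
  Submodule.span (algebraicClosure ℚ ℂ) {z | z ∈ F ∧ z ∈ LinForms}

/-- `F` is the smallest field, algebraically closed in the field of complex numbers, over which the linear forms are free. -/
def IsLeastFree (F : IntermediateField ℚ ℂ) : Prop :=
  Closed F ∧ FreeOver F ∧ ∀ F', Closed F' → FreeOver F' → F ≤ F'

/-- `F` is the smallest field, algebraically closed in the field of complex numbers, over which all loci are linear. -/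
def IsLeastLinear (F : IntermediateField ℚ ℂ) : Prop :=
  LinearLoci F ∧ ∀ F', Closed F' → LinearLoci F' → F ≤ F'

/-- `P` is the smallest set of primes such that all elements of `F` in `LinForms` are in `Forms P`. -/
def IsSupport (F : IntermediateField ℚ ℂ) (P : Set ℕ) : Prop :=
  (∀ x ∈ F, x ∈ LinForms → x ∈ Forms P) ∧
    ∀ P' : Set ℕ, (∀ p ∈ P', p.Prime) → (∀ x ∈ F, x ∈ LinForms → x ∈ Forms P') → P ⊆ P'

/-- `F` is algebraic over the field generated by its elements in `LinForms`. -/
def GeneratedByForms (F : IntermediateField ℚ ℂ) : Prop :=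
  ∀ z ∈ F, IsAlgebraic (IntermediateField.adjoin ℚ {x | x ∈ F ∧ x ∈ LinForms}) z

/-- The elements of `F` in `LinForms` are those which are algebraic over the field generated by each complementary
hyperplane of `LinForms`. -/
def Hyperplanes (F : IntermediateField ℚ ℂ) : Prop :=
  ∀ x ∈ LinForms, x ∈ F ↔ ∀ H ≤ LinForms, x ∉ H →
    H ⊔ Submodule.span (algebraicClosure ℚ ℂ) {x} = LinForms →
      IsAlgebraic (IntermediateField.adjoin ℚ (H : Set ℂ)) x

/-- Counterexamples to the strong four exponentials conjecture with entries in `LinForms` have their entries in `F` and in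
`Forms P`. -/
def FourExponentials (F : IntermediateField ℚ ℂ) (P : Set ℕ) : Prop :=
  ∀ x y : Fin 2 → ℂ, LinearIndependent (algebraicClosure ℚ ℂ) x → LinearIndependent (algebraicClosure ℚ ℂ) y →
    (∀ i j, x i * y j ∈ LinForms) → ∀ i j, x i * y j ∈ F ∧ x i * y j ∈ Forms P

/-! ### Preparations -/

noncomputable abbrev QB : IntermediateField ℚ ℂ := algebraicClosure ℚ ℂ

/-- the logarithms of the primes -/
def S : Set ℂ := {z : ℂ | ∃ p ∈ {p : ℕ | p.Prime}, z = lg p}

theorem algNum : AlgNum QB ℂ :=
  ⟨fun a => mem_algebraicClosure_iff.mp a.2, fun z hz => ⟨⟨z, mem_algebraicClosure_iff.mpr hz⟩, rfl⟩⟩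

theorem hE : LinForms = Lf QB S := rfl

theorem exp_alg {p : ℕ} (hp : p.Prime) : IsAlgebraic ℚ (Complex.exp (lg p)) := by
  have h1 : Complex.exp (lg p) = ((p : ℕ) : ℂ) := by
    rw [lg, ← Complex.ofReal_exp, Real.exp_log (by exact_mod_cast hp.pos), Complex.ofReal_natCast]
  rw [h1]
  exact isAlgebraic_natCast p

theorem baker_real {ι : Type} [Fintype ι] (P : ι → ℕ) (hP : ∀ i, (P i).Prime) (hinj : Function.Injective P)
    {c₀ : ℂ} (h0 : IsAlgebraic ℚ c₀) {c : ι → ℂ} (hc : ∀ i, IsAlgebraic ℚ (c i))
    (hsum : c₀ + ∑ i, c i * lg (P i) = 0) : c₀ = 0 ∧ ∀ i, c i = 0 :=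
  Pool.Agent.H297R2.baker_inhom (fun i => lg (P i)) (fun i => exp_alg (hP i))
    (Pool.Agent.H297R2.linearIndependent_log_prime P hP hinj) c₀ h0 c hc hsum

theorem inj_of_indep {n : ℕ} {l : Fin n → ℂ} (hl : LinearIndependent ℚ l) {P : Fin n → ℕ}
    (h : ∀ i, l i = lg (P i)) : Function.Injective P := by
  intro i j hij
  apply hl.injective
  rw [h, h, hij]

theorem baker : BakerProp S := by
  intro n l hl hli c₀ c h0 hc hsum
  choose P hP hPl using hl
  apply baker_real P hP (inj_of_indep hli hPl) h0 hc
  rw [← hsum]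
  congr 1
  exact Finset.sum_congr rfl fun i _ => by rw [hPl]

theorem indep_log {m : ℕ} {P : Fin m → ℕ} (hinj : Function.Injective P) (hP : ∀ i, (P i).Prime) :
    LinearIndependent ℚ (fun i : Fin m => lg (P i)) :=
  Pool.Agent.H297R2.linearIndependent_log_prime P hP hinj

theorem indep_iff {m : ℕ} (p : Fin m → ℕ) : AlgebraicIndependent ℚ (fun i : Fin m => lg (p i)) ↔
    AlgebraicIndependent ℚ (fun i : Fin m => Real.log ((p i : ℕ) : ℝ)) :=
  AlgHom.algebraicIndependent_iff (Complex.ofRealAm.restrictScalars ℚ) Complex.ofReal_injective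

theorem conj_iff : PrimeLogConjecture ↔ IndepConj S := by
  constructor
  · intro h n l hl hli
    choose P hP hPl using hl
    have h1 := (indep_iff P).mpr (h n P (inj_of_indep hli hPl) hP)
    have h2 : l = fun i : Fin n => lg (P i) := funext hPl
    rw [h2]
    exact h1
  · intro h m p hp1 hp2
    exact (indep_iff p).mp (h m _ (fun i => ⟨p i, hp2 i, rfl⟩) (indep_log hp1 hp2))

theorem conjB_iff : PrimeLogConjectureBounded ↔ IndepConjBounded S := by
  constructor
  · rintro ⟨C, h⟩
    refine ⟨C, fun n l hl hli => ?_⟩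
    choose P hP hPl using hl
    have h1 := h n P (inj_of_indep hli hPl) hP
    have h2 : l = fun i : Fin n => lg (P i) := funext hPl
    rw [h2]
    exact h1
  · rintro ⟨C, h⟩
    exact ⟨C, fun m p hp1 hp2 => h m _ (fun i => ⟨p i, hp2 i, rfl⟩) (indep_log hp1 hp2)⟩

/-- the basis of `LinForms` -/
noncomputable def bs : Option Nat.Primes → ℂ
  | none => 1
  | some p => lg (p : ℕ)

theorem bs_indep : LinearIndependent QB bs := by
  classical
  rw [linearIndependent_iff]
  intro f hf
  rw [Finsupp.linearCombination_apply, Finsupp.sum_option_index f (fun i a => a • bs i) (fun _ => zero_smul _ _)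
    (fun _ _ _ => add_smul _ _ _)] at hf
  have h1 := baker_real (ι := f.some.support) (fun p => ((p : Nat.Primes) : ℕ)) (fun p => p.1.2)
    (fun p q h => Subtype.ext (Subtype.ext h)) (c₀ := (f none : ℂ)) (mem_algebraicClosure_iff.mp (f none).2)
    (c := fun p => (f (some p.1) : ℂ)) (fun p => mem_algebraicClosure_iff.mp (f (some p.1)).2) (by
      have h2 : f none • bs none = (f none : ℂ) := by
        show (f none : ℂ) * 1 = _
        rw [mul_one]
      rw [h2] at hf
      rw [← hf, Finsupp.sum, ← Finset.sum_coe_sort f.some.support]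
      rfl)
  ext i
  cases i with
  | none => exact h1.1
  | some p =>
    by_cases hp : p ∈ f.some.support
    · exact h1.2 ⟨p, hp⟩
    · rw [Finsupp.notMem_support_iff] at hp
      exact congrArg Subtype.val hp

theorem forms_eq {P : Set ℕ} (hP : ∀ p ∈ P, p.Prime) :
    Forms P = Submodule.span QB (bs '' {i | ∀ p : Nat.Primes, i = some p → (p : ℕ) ∈ P}) := by
  unfold Forms
  congr 1
  ext z
  constructor
  · rintro (hz | ⟨p, hp, rfl⟩)
    · exact ⟨none, fun p h => absurd h (by simp), hz.symm⟩
    · refine ⟨some (⟨p, hP p hp⟩ : Nat.Primes), fun q hq => ?_, rfl⟩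
      rw [← Option.some.inj hq]
      exact hp
  · rintro ⟨i, hi, rfl⟩
    cases i with
    | none => exact Or.inl rfl
    | some p => exact Or.inr ⟨p, hi p rfl, rfl⟩

theorem linForms_eq : LinForms = Submodule.span QB (range bs) := by
  have h1 : ∀ p ∈ {p : ℕ | p.Prime}, p.Prime := fun p hp => hp
  rw [LinForms, forms_eq h1, ← image_univ]
  congr 2
  ext i
  exact ⟨fun _ => trivial, fun _ p _ => p.2⟩

theorem dep_none : bs none ∈ (Mt ℂ).closure (bs '' {none}ᶜ) := cl_alg isAlgebraic_one

theorem dep_some (p : Nat.Primes) : bs (some p) ∈ (Mt ℂ).closure (bs '' {some p}ᶜ) ↔ (p : ℕ) ∈ DepPrimes := by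
  have h1 : (Mt ℂ).closure (bs '' {some p}ᶜ) =
      (Mt ℂ).closure {z : ℂ | ∃ q : ℕ, q.Prime ∧ q ≠ p ∧ z = lg q} := by
    apply Subset.antisymm
    · apply cl_sub
      rintro _ ⟨i, hi, rfl⟩
      cases i with
      | none => exact cl_alg isAlgebraic_one
      | some q =>
        exact subset_cl _ ⟨q, q.2, fun h => hi (congrArg some (Subtype.ext h)), rfl⟩
    · apply cl_mono
      rintro _ ⟨q, hq, hqp, rfl⟩
      refine ⟨some (⟨q, hq⟩ : Nat.Primes), fun h => hqp ?_, rfl⟩
      rw [← Option.some.inj (mem_singleton_iff.mp h)]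
  rw [h1, mem_cl_adjoin]
  exact ⟨fun h => ⟨p.2, h⟩, fun h => h.2⟩

theorem depSet_eq : {i | bs i ∈ (Mt ℂ).closure (bs '' {i}ᶜ)} =
    {i | ∀ p : Nat.Primes, i = some p → (p : ℕ) ∈ DepPrimes} := by
  ext i
  cases i with
  | none => exact ⟨fun _ p h => absurd h (by simp), fun _ => dep_none⟩
  | some q =>
    constructor
    · intro h p hp
      rw [← Option.some.inj hp]
      exact (dep_some q).mp h
    · intro h
      exact (dep_some q).mpr (h q rfl)

theorem core_le_forms {x : ℂ} (hx : x ∈ core algNum.alg LinForms) : x ∈ Forms DepPrimes := by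
  rw [forms_eq (fun p hp => hp.1), ← depSet_eq]
  have h1 : ∀ {E : Submodule QB ℂ}, E = Submodule.span QB (range bs) → x ∈ core algNum.alg E →
      x ∈ core algNum.alg (Submodule.span QB (range bs)) := by
    intro E hE h
    rwa [← hE]
  exact core_le_span algNum.alg bs_indep (h1 linForms_eq hx)

theorem dep_sub {P : Set ℕ} (hP : ∀ p ∈ P, p.Prime)
    (h : ∀ x ∈ core algNum.alg LinForms, x ∈ Forms P) : DepPrimes ⊆ P := by
  intro p hp
  have h1 : ∀ x ∈ core algNum.alg (Submodule.span QB (range bs)),
      x ∈ Submodule.span QB (bs '' {i | ∀ p : Nat.Primes, i = some p → (p : ℕ) ∈ P}) := by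
    rw [← forms_eq hP, ← linForms_eq]
    exact h
  have h2 := mem_of_core_le algNum.alg bs_indep h1 ((dep_some ⟨p, hp.1⟩).mpr hp)
  exact h2 ⟨p, hp.1⟩ rfl

theorem inter_eq : inter (FF algNum.alg LinForms) = core algNum.alg LinForms := by
  apply le_antisymm
  · rw [inter, Submodule.span_le]
    rintro z ⟨h1, h2⟩
    exact (mem_core_iff algNum.alg).mpr ⟨h1, h2⟩
  · intro z hz
    exact Submodule.subset_span ((mem_core_iff algNum.alg).mp hz)

theorem finite_iff : FiniteDimensional QB (core algNum.alg LinForms) ↔ DepPrimes.Finite := by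
  constructor
  · intro hfd
    obtain ⟨t, ht⟩ : (core algNum.alg LinForms).FG := Module.Finite.iff_fg.mp hfd
    -- a finite set of primes which occur in the generators
    have key : ∀ u : Finset ℂ, (u : Set ℂ) ⊆ LinForms → ∃ P : Set ℕ, P.Finite ∧ (∀ p ∈ P, p.Prime) ∧
        (u : Set ℂ) ⊆ Forms P := by
      classical
      intro u
      induction u using Finset.induction_on with
      | empty => intro _; exact ⟨∅, finite_empty, by simp, by simp⟩
      | insert z u _ ih =>
        intro hu
        rw [Finset.coe_insert] at hu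
        obtain ⟨P, h1, h2, h3⟩ := ih ((subset_insert _ _).trans hu)
        have hz : z ∈ LinForms := hu (mem_insert _ _)
        obtain ⟨Y, hY1, hY2⟩ := Submodule.mem_span_finite_of_mem_span hz
        have hmem : ∀ y ∈ Y, y = 1 ∨ ∃ p : ℕ, p.Prime ∧ y = lg p := by
          intro y hy
          rcases hY1 hy with h | ⟨p, hp, h⟩
          · exact Or.inl h
          · exact Or.inr ⟨p, hp, h⟩
        choose! g hg using fun (y : ℂ) (hy : ∃ p : ℕ, p.Prime ∧ y = lg p) => hy
        refine ⟨P ∪ {p | p.Prime ∧ p ∈ g '' Y}, h1.union ((Y.finite_toSet.image g).subset fun p hp => hp.2), ?_, ?_⟩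
        · rintro p (hp | hp)
          · exact h2 p hp
          · exact hp.1
        · rw [Finset.coe_insert]
          refine insert_subset ?_ (h3.trans (Submodule.span_mono ?_))
          · refine Submodule.span_le.mpr ?_ hY2
            intro y hy
            rcases hmem y hy with h | h
            · exact Submodule.subset_span (Or.inl h)
            · exact Submodule.subset_span (Or.inr ⟨g y, Or.inr ⟨(hg y h).1, y, hy, rfl⟩, (hg y h).2⟩)
          · apply union_subset_union_right
            rintro _ ⟨p, hp, rfl⟩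
            exact ⟨p, Or.inl hp, rfl⟩
    obtain ⟨P, h1, h2, h3⟩ := key t (fun z hz => core_le algNum.alg (by
      rw [← ht]
      exact Submodule.subset_span hz))
    refine h1.subset (dep_sub h2 fun x hx => ?_)
    rw [← ht] at hx
    exact Submodule.span_le.mpr h3 hx
  · intro hfin
    have h1 : core algNum.alg LinForms ≤ Forms DepPrimes := fun x hx => core_le_forms hx
    have h2 : FiniteDimensional QB (Forms DepPrimes) := by
      apply FiniteDimensional.span_of_finite
      apply (finite_singleton _).union
      apply (hfin.image fun p : ℕ => lg p).subset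
      rintro _ ⟨p, hp, rfl⟩
      exact ⟨p, hp, rfl⟩
    exact Submodule.finiteDimensional_of_le h1

theorem dep_empty_iff : FF algNum.alg LinForms = algebraicClosure ℚ ℂ ↔ DepPrimes = ∅ := by
  constructor
  · intro h
    rw [← subset_empty_iff]
    refine dep_sub (by simp) fun x hx => ?_
    have h1 : x ∈ algebraicClosure ℚ ℂ := by
      rw [← h]
      exact core_sub_FF algNum.alg hx
    have h2 : x = (⟨x, h1⟩ : algebraicClosure ℚ ℂ) • (1 : ℂ) := by
      show x = x * 1
      rw [mul_one]
    rw [h2]
    exact Submodule.smul_mem _ _ (Submodule.subset_span (Or.inl rfl))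
  · intro h
    apply le_antisymm _ (alg_le (clos_FF algNum.alg))
    intro x hx
    have h1 : x ∈ (Mt ℂ).closure (core algNum.alg LinForms : Set ℂ) := hx
    refine Clos.cl_sub clos_alg ?_ h1
    intro y hy
    have h2 := core_le_forms hy
    rw [h] at h2
    have h3 : Forms ∅ ≤ toK algNum.alg clos_alg := by
      unfold Forms
      rw [Submodule.span_le]
      rintro z (hz | ⟨p, hp, _⟩)
      · rw [mem_singleton_iff] at hz
        rw [hz]
        exact one_mem (algebraicClosure ℚ ℂ)
      · exact absurd hp (notMem_empty p)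
    exact h3 h2

noncomputable def cj : ℂ ≃ₐ[ℚ] ℂ := Complex.conjAe.restrictScalars ℚ

theorem cj_symm (z : ℂ) : cj.symm z = (starRingEnd ℂ) z := rfl

theorem cj_stable {x : ℂ} (hx : x ∈ FF algNum.alg LinForms) : (starRingEnd ℂ) x ∈ FF algNum.alg LinForms := by
  rw [← cj_symm]
  refine FF_auto (S := S) algNum cj ?_ hx
  rintro z ⟨p, hp, rfl⟩
  refine ⟨p, hp, ?_⟩
  rw [cj_symm, lg, Complex.conj_ofReal]

/-! ### The result -/

theorem result : ∃ F : IntermediateField ℚ ℂ,
    IsLeastFree F ∧ IsSupport F DepPrimes ∧ (∀ z ∈ F, (starRingEnd ℂ) z ∈ F) ∧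
    -- the conjecture
    (PrimeLogConjecture ↔ F = algebraicClosure ℚ ℂ) ∧ (PrimeLogConjecture ↔ DepPrimes = ∅) ∧
    -- the conjecture with a bounded error
    (PrimeLogConjectureBounded ↔ Module.Finite (algebraicClosure ℚ ℂ) (inter F)) ∧
    (PrimeLogConjectureBounded ↔ DepPrimes.Finite) ∧
    -- further properties of the field
    IsLeastLinear F ∧ GeneratedByForms F ∧ Hyperplanes F ∧ FourExponentials F DepPrimes := by
  have hA := algNum.alg
  have h1 : PrimeLogConjecture ↔ FF hA LinForms = algebraicClosure ℚ ℂ :=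
    conj_iff.trans (indepConj_iff algNum baker)
  have h2 : PrimeLogConjectureBounded ↔ FiniteDimensional QB (core hA LinForms) :=
    conjB_iff.trans (bounded_iff algNum baker)
  refine ⟨FF hA LinForms, ⟨clos_FF hA, free_FF hA, fun F' h1 h2 => FF_le hA h1 h2⟩, ⟨?_, ?_⟩, fun z hz => cj_stable hz, h1,
    h1.trans dep_empty_iff, ?_, h2.trans finite_iff,
    ⟨linLoc_of_free hA (clos_FF hA) (free_FF hA), fun F' h1 h2 => FF_le hA h1 (free_of_linLoc hA h1 h2)⟩,
    ?_, ?_, ?_⟩
  · intro x hx hxL
    exact core_le_forms ((mem_core_iff hA).mpr ⟨hx, hxL⟩)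
  · intro P hP h
    apply dep_sub hP
    intro x hx
    have h3 := (mem_core_iff hA).mp hx
    exact h x h3.1 h3.2
  · rw [inter_eq]
    exact h2
  · intro z hz
    rw [← mem_cl_adjoin]
    exact cl_mono (fun x hx => (mem_core_iff hA).mp hx) hz
  · intro x hx
    rw [mem_FF_iff hA hx]
    constructor
    · intro h H h1 h2 h3
      rw [← mem_cl_adjoin]
      exact h H h1 h2 h3
    · intro h H h1 h2 h3
      rw [mem_cl_adjoin]
      exact h H h1 h2 h3
  · intro x y hx hy hxy i j
    have h3 := four (linLoc_of_free hA (clos_FF hA) (free_FF hA)) hx hy hxy i j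
    exact ⟨h3, core_le_forms ((mem_core_iff hA).mpr ⟨h3, hxy i j⟩)⟩

end Pool.Agent.Results.MP_d171e3_nt.DependentPrimes
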