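import Pool.Agent.Q138.PS.VK
import Pool.Agent.Q138.PS.VE
import Pool.Agent.Y916.Al.WinP

/-!
# Logarithms of primes, integers and algebraic numbers near `α P(n)`: no relations of bounded degree

Let `q ≥ 2` and let `𝒞` be a countable set of complex numbers (for example all logarithms of algebraic numbers). Outside a set of
real numbers of Hausdorff dimension at most `q / (q + 1 / (q 2 ^ (q - 1)))` (that is `8 / 9` for `q = 2`) every `α > 0` has the
following property. There is `η > 0` such that for ALL `w_1, …, w_g` in `𝒞`, ALL `r`, `d`, `D`, `δ` there is `κ > 0` such that for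
all large `N` and ALL integral polynomials `P` of degree `q` with positive leading coefficient and coefficients of size at most
`N ^ η`: for all but `N ^ (1 - κ)` of the `n ≤ N`, for ALL `r`-tuples of distinct complex numbers `x_1, …, x_r` for which
`x_i - ⌊α P(n)⌋` is algebraic of degree at most `d` and of height at most `N ^ κ` (for example all primes and all integers `x_i`
with `|x_i - ⌊α P(n)⌋| ≤ N ^ κ`) and ALL logarithms `l_i` of the `x_i`: every polynomial of degree at most `δ` over a number field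
of degree at most `D` which vanishes at `w_1, …, w_g, l_1, …, l_r` is zero after the substitution of `w_1, …, w_g`.
-/

set_option autoImplicit false

open Module

namespace Pool.Agent.Results.MP_d171e3_nt.LogarithmsAlongRealMultiples

open Finset Filter Topology
open Pool.Agent.Q138.PS

/-- For all `r`-tuples of distinct elements `x_i` of `S` and all their logarithms `l_i` every polynomial of degree at most `δ` over
a number field of degree at most `D` which vanishes at `(w, l)` is zero after the substitution of `w`. -/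
def AllFree (r D δ : ℕ) {g : ℕ} (w : Fin g → ℂ) (S : Set ℂ) : Prop :=
  ∀ x : Fin r → ℂ, Function.Injective x → (∀ i, x i ∈ S) → ∀ l : Fin r → ℂ, (∀ i, Complex.exp (l i) = x i) →
    ∀ K : IntermediateField ℚ ℂ, FiniteDimensional ℚ K → Module.finrank ℚ K ≤ D →
    ∀ P : MvPolynomial (Fin g ⊕ Fin r) K, P.totalDegree ≤ δ → MvPolynomial.aeval (Sum.elim w l) P = 0 →
      MvPolynomial.aeval (Sum.elim (fun j => MvPolynomial.C (w j)) MvPolynomial.X) P = (0 : MvPolynomial (Fin r) ℂ)

theorem winB (r D δ d : ℕ) {g : ℕ} (w : Fin g → ℂ) : WinB d (AllFree r D δ w) := by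
  classical
  obtain ⟨E, hE1, hE⟩ := Pool.Agent.Y916.Al.windowP r (max d D) δ (g + 2) 1 1 1 1
  refine ⟨E, g + 3, fun H t ht => ?_⟩
  have hN1 : 1 ≤ t := (Nat.one_le_pow _ _ (by omega)).trans ht
  have hNR : (0 : ℝ) < t := by exact_mod_cast hN1
  have hNC : (t : ℂ) ≠ 0 := by exact_mod_cast (show t ≠ 0 by omega)
  have hnorm : ‖(t : ℂ)‖ = t := Complex.norm_natCast t
  have hHt : Pool.Agent.Y916.Al.Ht 1 1 (t : ℂ) := by
    refine ⟨Polynomial.X - Polynomial.C (t : ℤ), Polynomial.X_sub_C_ne_zero _, ?_, fun j => ?_, ?_⟩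
    · rw [Polynomial.natDegree_X_sub_C]
    · rw [hnorm, pow_one, Polynomial.coeff_sub, Polynomial.coeff_X, Polynomial.coeff_C]
      have h1 : (1 : ℝ) ≤ t := by exact_mod_cast hN1
      split_ifs with h2 h3 h3
      · omega
      · simpa using h1
      · simp
      · simp
    · rw [map_sub, Polynomial.aeval_X, Polynomial.aeval_C]
      simp
  -- the constants `2 π i`, `log t` and `w`
  set w' : Option (Option (Fin g)) → ℂ := fun o => o.elim (2 * Real.pi * Complex.I) fun o => o.elim (Complex.log t) w with hw'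
  obtain ⟨S, hS, h⟩ := hE H (t : ℂ) (by
    rw [hnorm]
    exact_mod_cast ht) hHt (Option (Option (Fin g))) w' Finset.univ
    (by rw [Finset.card_univ, Fintype.card_option, Fintype.card_option, Fintype.card_fin]) (Pool.Agent.Y916.Om.Dom.univ _)
  refine ⟨insert (t : ℂ) (S.image fun β => (t : ℂ) + β), ?_, ?_⟩
  · refine (card_insert_le _ _).trans ?_
    have := (card_image_le (s := S) (f := fun β => (t : ℂ) + β)).trans hS
    omega
  intro x hx hxS l hl K hK hKD P hP hP0
  have hβ : ∀ i, (x i - t) ∉ S ∧ (x i - t) ≠ 0 ∧ Pool.Agent.Y916.Ari.Adm (max d D) H (x i - t) := by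
    intro i
    obtain ⟨h1, h2⟩ := hxS i
    rw [mem_insert, not_or] at h2
    obtain ⟨p, hp0, hpd, hpc, hp⟩ := h1
    exact ⟨fun hmem => h2.2 (mem_image.2 ⟨_, hmem, by ring⟩), fun h0 => h2.1 (sub_eq_zero.1 h0),
      ⟨p, hp0, hpd.trans (le_max_left _ _), hpc, hp⟩⟩
  have hlog : ∀ i, l i - (1 : K) * Complex.log (1 + (x i - t) / t) ∈ Submodule.span K (insert 1 (Set.range w')) := by
    intro i
    have hx0 : x i ≠ 0 := by
      rw [← hl i]
      exact Complex.exp_ne_zero _
    have h2 : (1 : ℂ) + (x i - t) / t = x i / t := by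
      field_simp
      ring
    have h3 : Complex.exp (l i - Complex.log (x i / t) - Complex.log t) = 1 := by
      rw [Complex.exp_sub, Complex.exp_sub, Complex.exp_log (div_ne_zero hx0 hNC), Complex.exp_log hNC, hl i]
      field_simp
    obtain ⟨n, hn⟩ := Complex.exp_eq_one_iff.1 h3
    have h4 : l i - (1 : K) * Complex.log (1 + (x i - t) / t) =
        ((n : K) : ℂ) * (2 * Real.pi * Complex.I) + ((1 : K) : ℂ) * Complex.log t := by
      rw [h2]
      push_cast
      rw [one_mul, one_mul, ← hn]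
      ring
    rw [h4]
    refine Submodule.add_mem _ ?_ ?_
    · exact Submodule.smul_mem _ (n : K) (Submodule.subset_span (Or.inr ⟨none, rfl⟩))
    · exact Submodule.smul_mem _ (1 : K) (Submodule.subset_span (Or.inr ⟨some none, rfl⟩))
  have h1 := h (fun i => x i - t) (fun i j hij => hx (sub_left_injective hij)) hβ K hK (hKD.trans (le_max_right _ _)) l
    (fun i => ⟨1, one_ne_zero, hlog i⟩) (MvPolynomial.rename (Sum.map (fun j => some (some j)) id) P)
    ((MvPolynomial.totalDegree_rename_le _ _).trans hP) (by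
      rw [MvPolynomial.aeval_rename, ← hP0]
      congr 2
      funext a
      rcases a with a | a <;> rfl)
  rw [MvPolynomial.aeval_rename] at h1
  rw [← h1]
  congr 2
  funext a
  rcases a with a | a <;> rfl

/-- **Theorem.** -/
theorem result (q : ℕ) (hq : 2 ≤ q) (𝒞 : Set ℂ) (h𝒞 : 𝒞.Countable) :
    ∃ E : Set ℝ, dimH E ≤ ENNReal.ofReal (q / (q + 1 / ((q : ℝ) * 2 ^ (q - 1)))) ∧ ∀ α : ℝ, 0 < α → α ∉ E →
      ∃ η : ℝ, 0 < η ∧ ∀ (g : ℕ) (w : Fin g → ℂ), (∀ i, w i ∈ 𝒞) → ∀ r d D δ : ℕ,
      ∃ κ : ℝ, 0 < κ ∧ ∀ᶠ N : ℕ in atTop, ∀ P : Polynomial ℤ, P.natDegree = q → 0 < P.leadingCoeff →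
        (∀ j, |((P.coeff j : ℤ) : ℝ)| ≤ (N : ℝ) ^ η) →
        (badB (AllFree r D δ w) d ⌊(N : ℝ) ^ κ⌋₊ α P N : ℝ) ≤ (N : ℝ) ^ (1 - κ) := by
  classical
  have hC : Countable {x : ℂ // x ∈ 𝒞} := h𝒞.to_subtype
  obtain ⟨E, hE, hg⟩ := win_beta (ι := (Σ g : ℕ, Fin g → {x : ℂ // x ∈ 𝒞}) × ℕ × ℕ × ℕ) q hq
    (fun i => AllFree i.2.1 i.2.2.1 i.2.2.2 (fun j => (i.1.2 j : ℂ)))
    (fun i S S' hS h x hx hxS => h x hx fun j => hS (hxS j))
  refine ⟨E, hE, fun α hα hαE => ?_⟩
  obtain ⟨η, hη, h1⟩ := hg α hα hαE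
  refine ⟨η, hη, fun g w hw r d D δ => ?_⟩
  exact h1 (⟨g, fun j => ⟨w j, hw j⟩⟩, r, D, δ) d (winB r D δ d w)

end Pool.Agent.Results.MP_d171e3_nt.LogarithmsAlongRealMultiples
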