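import Pool.Agent.Q138.PS.WU
import Pool.Agent.Q138.AJ.Rd171e3a
import Pool.Agent.Q138.AJ.Rd171e3b

/-!
# Algebraic independence of the logarithms of all tuples of primes which are close to a given point

(1) Let `k`, `δ`, `d`, `D` be given. There is `c > 0` such that for every sequence `V_j` of `ℚ`-spaces of complex numbers of
dimension at most `D`, every metric space `Y`, ANY map `p` which associates a point of `Y` to every `k`-tuple of natural numbers,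
and every `τ > 0` there is a set `Z ⊆ Y` of Hausdorff dimension at most `(k - c) / τ` such that for every `z ∈ Y` outside `Z`, all
`j` and `b`, for all but finitely many of the `k`-tuples `q` of primes with `dist (p q, z) ≤ b |q| ^ (-τ)` no nonzero polynomial of
degree at most `δ` whose coefficients are in the span of `V_j` over a number field of degree at most `d` (with heights which are
not bounded) vanishes at `log q_1, …, log q_k` (any choice of the logarithms).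

(2) Let `m ≥ 1`, `g` be given, let `ξ_j` be a sequence of `g`-tuples of arbitrary complex numbers, `p` a map from the `m`-tuples of
natural numbers to a metric space `Y`, and `τ > 0`. There is a set `Z ⊆ Y` of Hausdorff dimension at most `(m - 1) / τ` such that
for every `z ∈ Y` outside `Z`, every `d` and `A` there is `B` such that for all `j` and `b`, for all but finitely many of the
`m`-tuples `x` of integers `≥ 2` (in particular of primes) with `dist (p x, z) ≤ b |x| ^ (-τ)`, for ALL polynomials `P` in `m`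
variables, of degree at most `d` in each variable, whose coefficients are polynomials in `ξ_j` of degree at most `d` in each
variable with integer coefficients of absolute value at most `|x| ^ A`, one has
`|P(log x_1, …, log x_m)| > |x| ^ (-B) · (largest coefficient of P)`.

(3) For `m = s + 1` and the points `(x_1 / x_0, …, x_s / x_0)` of `ℝ ^ s`: outside a set of Hausdorff dimension at most
`s ^ 2 / (s + 1)` this holds, for every `z` with positive coordinates, for all but finitely many of the infinitely many `x` with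
`|x_i / x_0 - z_i| ≤ x_0 ^ (-1 - 1 / s)` for all `i` (Dirichlet).
-/

set_option autoImplicit false

namespace Pool.Agent.Results.MP_d171e3_nt.LogarithmsNearGivenPoints

open Pool.Agent.Q138.PS Pool.Agent.Q138.AJ

/-- the largest coordinate -/
def size {k : ℕ} (n : Fin k → ℕ) : ℕ := Finset.univ.sup n

/-- There is a polynomial `P` in `m` variables, of degree at most `d` in each variable, whose coefficients are polynomials in `g`
variables of degree at most `d` in each variable with integer coefficients of absolute value at most `|x| ^ A`, such that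
`|P (ξ, log x)|` is at most `|x| ^ (-B)` times the absolute value of one of the non-zero coefficients of `P (ξ, X)`. -/
def Small {m g : ℕ} (d : ℕ) (A B : ℝ) (ξ : Fin g → ℂ) (x : Fin m → ℕ) : Prop :=
  ∃ P : MvPolynomial (Fin m) (MvPolynomial (Fin g) ℤ), (∀ j, P.degreeOf j ≤ d) ∧
    (∀ e i, (P.coeff e).degreeOf i ≤ d) ∧ (∀ e u, |(((P.coeff e).coeff u : ℤ) : ℝ)| ≤ (size x : ℝ) ^ A) ∧
    ∃ e, MvPolynomial.aeval ξ (P.coeff e) ≠ 0 ∧
      ‖MvPolynomial.eval₂ (MvPolynomial.aeval ξ).toRingHom (fun j => (Real.log (x j) : ℂ)) P‖ ≤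
        (size x : ℝ) ^ (-B) * ‖MvPolynomial.aeval ξ (P.coeff e)‖

theorem small_mem {m g d T : ℕ} {A B : ℝ} (hA : 0 ≤ A) (hB : 0 ≤ B) {ξ : Fin g → ℂ} {x : Fin m → ℕ}
    (h2 : ∀ i, 2 ≤ x i) (hx2 : 2 ≤ size x) (hxT : size x ≤ T) (hTx : T ≤ 2 * size x) (h : Small d A (2 * B) ξ x) :
    x ∈ Rd171e3b.Exceptional m g d T A B ξ := by
  obtain ⟨P, h3, h4, h5, e, h6, h7⟩ := h
  have hs : (2 : ℝ) ≤ size x := by exact_mod_cast hx2
  have hT1 : (size x : ℝ) ≤ T := by exact_mod_cast hxT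
  have hT2 : (T : ℝ) ≤ 2 * size x := by exact_mod_cast hTx
  have hT0 : (0 : ℝ) < T := by linarith
  refine ⟨fun j => ⟨by have := h2 j; omega, (Finset.le_sup (f := x) (Finset.mem_univ j)).trans hxT⟩, P, h3, h4,
    fun e u => (h5 e u).trans (Real.rpow_le_rpow (Nat.cast_nonneg _) hT1 hA), e, h6, h7.trans ?_⟩
  refine mul_le_mul_of_nonneg_right ?_ (norm_nonneg _)
  have h8 : (T : ℝ) ≤ (size x : ℝ) ^ (2 : ℝ) := by
    rw [Real.rpow_two]
    nlinarith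
  calc (size x : ℝ) ^ (-(2 * B)) = ((size x : ℝ) ^ (2 : ℝ)) ^ (-B) := by
        rw [← Real.rpow_mul (Nat.cast_nonneg _)]
        ring_nf
    _ ≤ (T : ℝ) ^ (-B) := Real.rpow_le_rpow_of_nonpos hT0 h8 (by linarith)

theorem two_le_size {m : ℕ} (hm : 1 ≤ m) {x : Fin m → ℕ} (h : ∀ i, 2 ≤ x i) : 2 ≤ size x :=
  (h ⟨0, hm⟩).trans (Finset.le_sup (f := x) (Finset.mem_univ _))

theorem exc_mono {m g d N : ℕ} (hN : 1 ≤ N) {A B B' : ℝ} (hB : B ≤ B') (ξ : Fin g → ℂ) :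
    Rd171e3b.Exceptional m g d N A B' ξ ⊆ Rd171e3b.Exceptional m g d N A B ξ := by
  rintro x ⟨h1, P, h3, h4, h5, e, h6, h7⟩
  refine ⟨h1, P, h3, h4, h5, e, h6, h7.trans (mul_le_mul_of_nonneg_right ?_ (norm_nonneg _))⟩
  exact Real.rpow_le_rpow_of_exponent_le (by exact_mod_cast hN) (by linarith)

theorem count (m g d : ℕ) (hm : 1 ≤ m) (A ε : ℝ) (hA : 0 ≤ A) (hε : 0 < ε) : ∃ B : ℝ, ∀ ξ : Fin g → ℂ, ∃ C : ℝ,
    ∀ T : ℕ, 1 ≤ T → {x | x ∈ {x : Fin m → ℕ | (∀ i, 2 ≤ x i) ∧ Small d A B ξ x} ∧ ∀ i, x i ≤ T}.Finite ∧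
      (({x | x ∈ {x : Fin m → ℕ | (∀ i, 2 ≤ x i) ∧ Small d A B ξ x} ∧ ∀ i, x i ≤ T}).ncard : ℝ) ≤
        C * (T : ℝ) ^ ((m : ℝ) - 1 + ε) := by
  obtain ⟨B, C, h⟩ := Rd171e3b.result m g d hm A ε hε
  have hm1 : (1 : ℝ) ≤ m := by exact_mod_cast hm
  refine ⟨2 * max B 0, fun ξ => ?_⟩
  refine count_of_dyadic _ ((m : ℝ) - 1 + ε) C (by linarith) (fun x hx => ?_) (fun T hT => ?_)
  · have := two_le_size hm hx.1
    exact (by omega : 1 ≤ size x)
  · obtain ⟨h1, h2⟩ := h T hT ξ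
    have hsub : {n | n ∈ {x : Fin m → ℕ | (∀ i, 2 ≤ x i) ∧ Small d A (2 * max B 0) ξ x} ∧ tsize n ≤ T ∧ T ≤ 2 * tsize n} ⊆
        Rd171e3b.Exceptional m g d T A B ξ := by
      rintro x ⟨⟨h3, h4⟩, h5, h6⟩
      exact exc_mono hT (le_max_left _ _) ξ (small_mem hA (le_max_right _ _) h3 (two_le_size hm h3) h5 h6 h4)
    exact le_trans (by exact_mod_cast Set.ncard_le_ncard hsub h1) h2

theorem small_mono {m g d : ℕ} {A A' B B' : ℝ} (hA : A ≤ A') (hB : B' ≤ B) {ξ : Fin g → ℂ} {x : Fin m → ℕ}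
    (hx : 2 ≤ size x) (h : Small d A B ξ x) : Small d A' B' ξ x := by
  obtain ⟨P, h3, h4, h5, e, h6, h7⟩ := h
  have h1 : (1 : ℝ) ≤ size x := by exact_mod_cast (by omega : 1 ≤ size x)
  exact ⟨P, h3, h4, fun e u => (h5 e u).trans (Real.rpow_le_rpow_of_exponent_le h1 hA), e, h6,
    h7.trans (mul_le_mul_of_nonneg_right (Real.rpow_le_rpow_of_exponent_le h1 (by linarith)) (norm_nonneg _))⟩

theorem near (m g : ℕ) (hm : 1 ≤ m) (ξ : ℕ → Fin g → ℂ) (Y : Type) [MetricSpace Y] [MeasurableSpace Y] [BorelSpace Y]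
    (p : (Fin m → ℕ) → Y) (τ : ℝ) (hτ : 0 < τ) :
    ∃ Z : Set Y, dimH Z ≤ ENNReal.ofReal (((m : ℝ) - 1) / τ) ∧ ∀ z, z ∉ Z → ∀ (d : ℕ) (A : ℝ), ∃ B : ℝ, ∀ (j : ℕ) (b : ℝ),
      {x : Fin m → ℕ | (∀ i, 2 ≤ x i) ∧ dist (p x) z ≤ b * (max 1 (size x : ℝ)) ^ (-τ) ∧ Small d A B (ξ j) x}.Finite := by
  have key : ∀ (d a i : ℕ), ∃ (B : ℝ) (Z : Set Y), dimH Z ≤ ENNReal.ofReal (((m : ℝ) - 1 + 1 / ((i : ℝ) + 1)) / τ) ∧
      ∀ z, z ∉ Z → ∀ (j : ℕ) (b : ℝ),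
        {x : Fin m → ℕ | (∀ i, 2 ≤ x i) ∧ dist (p x) z ≤ b * (max 1 (size x : ℝ)) ^ (-τ) ∧ Small d a B (ξ j) x}.Finite := by
    intro d a i
    obtain ⟨B, hB⟩ := count m g d hm a (1 / ((i : ℝ) + 1)) (Nat.cast_nonneg _) Nat.one_div_pos_of_nat
    obtain ⟨Z, hZ, hz⟩ := fin_tuple_seq p (fun j : ℕ => {x : Fin m → ℕ | (∀ i, 2 ≤ x i) ∧ Small d a B (ξ j) x}) _
      (fun j => hB (ξ j)) τ hτ
    refine ⟨B, Z, hZ, fun z hzZ j b => (hz z hzZ j b).subset ?_⟩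
    rintro x ⟨h1, h2, h3⟩
    exact ⟨⟨h1, h3⟩, h2⟩
  choose B Z hZ hz using key
  refine ⟨⋃ (d : ℕ) (a : ℕ), ⋂ i, Z d a i, ?_, fun z hzZ d A => ?_⟩
  · rw [dimH_iUnion]
    refine iSup_le fun d => ?_
    rw [dimH_iUnion]
    exact iSup_le fun a => dimH_limit (Z d a) _ τ (hZ d a)
  · have h1 : z ∉ ⋂ i, Z d ⌈A⌉₊ i := fun h => hzZ (Set.mem_iUnion.2 ⟨d, Set.mem_iUnion.2 ⟨⌈A⌉₊, h⟩⟩)
    obtain ⟨i, hi⟩ : ∃ i, z ∉ Z d ⌈A⌉₊ i := by
      by_contra h
      push Not at h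
      exact h1 (Set.mem_iInter.2 h)
    refine ⟨B d ⌈A⌉₊ i, fun j b => (hz d ⌈A⌉₊ i z hi j b).subset ?_⟩
    rintro x ⟨h2, h3, h4⟩
    exact ⟨h2, h3, small_mono (Nat.le_ceil A) le_rfl (two_le_size hm h2) h4⟩

/-- There is a set of points `z`, of Hausdorff dimension at most `e`, outside of which for all `j` and `b` there are only finitely
many `k`-tuples `q` of primes with `Bad j q` and `dist (p q, z) ≤ b |q| ^ (-τ)`. -/
def FewPrimes {k : ℕ} {Y : Type} [MetricSpace Y] (p : (Fin k → ℕ) → Y) (τ e : ℝ) (Bad : ℕ → (Fin k → ℕ) → Prop) : Prop :=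
  ∃ Z : Set Y, dimH Z ≤ ENNReal.ofReal e ∧ ∀ z, z ∉ Z → ∀ (j : ℕ) (b : ℝ),
    {q : Fin k → ℕ | (∀ i, (q i).Prime) ∧ dist (p q) z ≤ b * (max 1 (size q : ℝ)) ^ (-τ) ∧ Bad j q}.Finite

/-- There is a set of points `z`, of Hausdorff dimension at most `e`, outside of which, for all `d` and `A`, there is `B` such that
for all `j` and `b` there are only finitely many `x`, `x_i ≥ 2`, with `Small d A B ξ_j x` and `dist (p x, z) ≤ b |x| ^ (-τ)`. -/
def FewSmall {m g : ℕ} (ξ : ℕ → Fin g → ℂ) {Y : Type} [MetricSpace Y] (p : (Fin m → ℕ) → Y) (τ e : ℝ) : Prop :=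
  ∃ Z : Set Y, dimH Z ≤ ENNReal.ofReal e ∧ ∀ z, z ∉ Z → ∀ (d : ℕ) (A : ℝ), ∃ B : ℝ, ∀ (j : ℕ) (b : ℝ),
    {x : Fin m → ℕ | (∀ i, 2 ≤ x i) ∧ dist (p x) z ≤ b * (max 1 (size x : ℝ)) ^ (-τ) ∧ Small d A B (ξ j) x}.Finite

/-- `x_i ≥ 2` and `|x_i / x_0 - z_i| ≤ x_0 ^ (-1 - 1 / s)` -/
def Close {s : ℕ} (z : Fin s → ℝ) (x : Fin (s + 1) → ℕ) : Prop :=
  (∀ i, 2 ≤ x i) ∧ ∀ i : Fin s, |(x i.succ : ℝ) / x 0 - z i| ≤ (x 0 : ℝ) ^ (-(1 + 1 / (s : ℝ)))

/-- **Theorem.** -/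
theorem result :
    (∀ k δ d D : ℕ, ∃ c : ℝ, 0 < c ∧ ∀ V : ℕ → Submodule ℚ ℂ, (∀ j, Module.Finite ℚ (V j) ∧ Module.finrank ℚ (V j) ≤ D) →
      ∀ (Y : Type) [MetricSpace Y] [MeasurableSpace Y] [BorelSpace Y] (p : (Fin k → ℕ) → Y) (τ : ℝ), 0 < τ →
        FewPrimes p τ ((k - c) / τ) fun j q => Rd171e3a.Related δ d (V j) q) ∧
    (∀ m g : ℕ, 1 ≤ m → ∀ ξ : ℕ → Fin g → ℂ,
      ∀ (Y : Type) [MetricSpace Y] [MeasurableSpace Y] [BorelSpace Y] (p : (Fin m → ℕ) → Y) (τ : ℝ), 0 < τ →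
        FewSmall ξ p τ (((m : ℝ) - 1) / τ)) ∧
    (∀ s g : ℕ, 1 ≤ s → ∀ ξ : ℕ → Fin g → ℂ,
      ∃ Z : Set (Fin s → ℝ), dimH Z ≤ ENNReal.ofReal ((s : ℝ) ^ 2 / (s + 1)) ∧ ∀ z, z ∉ Z → (∀ i, 0 < z i) →
        {x | Close z x}.Infinite ∧
        ∀ (d : ℕ) (A : ℝ), ∃ B : ℝ, ∀ j : ℕ, {x | Close z x ∧ Small d A B (ξ j) x}.Finite) := by
  refine ⟨fun k δ d D => ?_, fun m g hm ξ Y _ _ _ p τ hτ => near m g hm ξ Y p τ hτ, fun s g hs ξ => ?_⟩
  · obtain ⟨c, hc, C, h⟩ := Rd171e3a.result k δ d D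
    refine ⟨c, hc, fun V hV Y _ _ _ p τ hτ => ?_⟩
    obtain ⟨Z, hZ, hz⟩ := fin_tuple_seq p (fun j : ℕ => {q : Fin k → ℕ | (∀ i, (q i).Prime) ∧
      Rd171e3a.Related δ d (V j) q}) _ (fun j => ⟨C, fun T hT => by
        have h1 := h (V j) (hV j).1 (hV j).2 T hT
        have e : {n | n ∈ {q : Fin k → ℕ | (∀ i, (q i).Prime) ∧ Rd171e3a.Related δ d (V j) q} ∧ ∀ i, n i ≤ T} =
            {p : Fin k → ℕ | (∀ i, (p i).Prime ∧ p i ≤ T) ∧ Rd171e3a.Related δ d (V j) p} := by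
          ext q
          constructor
          · rintro ⟨⟨a1, a2⟩, a3⟩
            exact ⟨fun i => ⟨a1 i, a3 i⟩, a2⟩
          · rintro ⟨a1, a2⟩
            exact ⟨⟨fun i => (a1 i).1, a2⟩, fun i => (a1 i).2⟩
        rw [e]
        exact h1⟩) τ hτ
    refine ⟨Z, hZ, fun z hzZ j b => (hz z hzZ j b).subset ?_⟩
    rintro q ⟨h1, h2, h3⟩
    exact ⟨⟨h1, h3⟩, h2⟩
  · have hs0 : (0 : ℝ) < s := by exact_mod_cast hs
    obtain ⟨Z, hZ, hz⟩ := near (s + 1) g (by omega) ξ (Fin s → ℝ) ratios (1 + 1 / (s : ℝ)) (by positivity)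
    refine ⟨Z, hZ.trans (ENNReal.ofReal_le_ofReal (le_of_eq ?_)), fun z hzZ hz0 => ⟨dirichlet_infinite hs z hz0,
      fun d A => ?_⟩⟩
    · push_cast
      field_simp
      ring
    · obtain ⟨B, hB⟩ := hz z hzZ d A
      obtain ⟨b, hb⟩ := ratios_near z hz0
      refine ⟨B, fun j => (hB j b).subset ?_⟩
      rintro x ⟨⟨h1, h2⟩, h3⟩
      exact ⟨h1, hb x h1 h2, h3⟩

end Pool.Agent.Results.MP_d171e3_nt.LogarithmsNearGivenPoints
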