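import Pool.Agent.Q147.HL.Asym

/-!
# Zero-one laws for the monomials in the logarithms of the primes

For a positive integer `n` let `L n` be the product of the logarithms of the prime factors of `n`, with
multiplicity, and let `wt n` be the sum of the indices of the prime factors (`2` has index `1`, `3` has index `2`,
`5` has index `3` and so on), so that the integers of weight `t` correspond to the partitions of `t`. The numbers
`L n` are the monomials in the logarithms of the primes.  Let `K` be any subfield of the real numbers.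

* Let `D t` be the dimension over `K` of the space spanned by all `L n` with `wt n ≤ t`, `p t` the number of
  partitions of `t`, and `A t = p 0 + ... + p t` the number of all these `n`. Either the logarithms of the primes
  are algebraically independent over `K` and `D t / A t = 1` for all `t`, or `D t / A t` tends to `0`; in the second
  case `D t ≤ b * p t` for all `t`, where `b` is the weight of any relation.
* If `L 1, ..., L b` are linearly dependent over `K` then the dimension of the space spanned by `L 1, ..., L N` is at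
  most `N - ⌊N / b⌋` for all `N`. So the logarithms are algebraically independent if this dimension is at least
  `(1 - o(1)) N` along a sequence.
* For every set `F` of positive integers which contains a dilate of each finite set, for example for each `F` of
  upper density one, the logarithms are algebraically independent if and only if the `L n`, `n ∈ F`, are linearly
  independent.

Proof. A relation of weight `b` multiplied by all monomials of weight at most `t - b` gives independent relations.
The partition numbers vary slowly: `p t / A t` tends to `0`.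
-/

set_option autoImplicit false

namespace Pool.Agent.Results.MP_d171e3_nt.PartitionLaw

open Module

/-- The logarithms of any finitely many distinct primes are algebraically independent over `K`. For `K = ℚ` this is the
problem. -/
def Conjecture (K : Type) [Field K] [Algebra K ℝ] : Prop :=
  ∀ (m : ℕ) (p : Fin m → ℕ), Function.Injective p → (∀ i, (p i).Prime) →
    AlgebraicIndependent K (fun i : Fin m => Real.log ((p i : ℕ) : ℝ))

/-- the product of the logarithms of the prime factors of `n`, with multiplicity -/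
noncomputable def L (n : ℕ) : ℝ := (n.primeFactorsList.map fun p : ℕ => Real.log (p : ℝ)).prod

/-- the sum of the indices of the prime factors of `n`, with multiplicity; the index of `p` is the number of
primes up to `p` -/
def wt (n : ℕ) : ℕ := (n.primeFactorsList.map Nat.primeCounting).sum

/-- the number of partitions of `t` -/
def p (t : ℕ) : ℕ := Fintype.card (Nat.Partition t)

/-- the dimension of the space spanned by the `L n` with `n ∈ S` -/
noncomputable def dim (K : Type) [Field K] [Algebra K ℝ] (S : Set ℕ) : ℕ :=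
  finrank K (Submodule.span K (L '' S))

/-- the positive integers of weight at most `t` -/
def W (t : ℕ) : Set ℕ := {n | n ≠ 0 ∧ wt n ≤ t}

/-- the positive integers up to `N` -/
def I (N : ℕ) : Set ℕ := {n | 1 ≤ n ∧ n ≤ N}

/-- `F` contains a dilate of every finite set of positive integers -/
def Thick (F : Set ℕ) : Prop := ∀ S : Finset ℕ, (∀ s ∈ S, s ≠ 0) → ∃ d, ∀ s ∈ S, d * s ∈ F

/-- upper density one -/
def UpperDensityOne (F : Set ℕ) : Prop :=
  ∀ ε : ℝ, 0 < ε → ∀ N₀ : ℕ, ∃ N, N₀ ≤ N ∧ (1 - ε) * N ≤ ((F ∩ Set.Icc 1 N).ncard : ℝ)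

theorem result (K : Type) [Field K] [Algebra K ℝ] :
    -- (1) one relation of weight at most `b` implies many relations
    (∀ b, ¬ LinearIndepOn K L (W b) → ∀ t,
      dim K (W t) ≤ b * p t ∧ (b ≤ t → dim K (W t) ≤ ∑ s ∈ Finset.Ioc (t - b) t, p s)) ∧
    -- (2) the law for the weight
    (Conjecture K → ∀ t, dim K (W t) = ∑ s ∈ Finset.range (t + 1), p s) ∧
    (¬ Conjecture K → ∃ b, ∀ t, dim K (W t) ≤ b * p t) ∧
    (¬ Conjecture K → ∀ ε : ℝ, 0 < ε → ∃ t₀, ∀ t, t₀ ≤ t →
      (dim K (W t) : ℝ) ≤ ε * ∑ s ∈ Finset.range (t + 1), (p s : ℝ)) ∧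
    (Conjecture K ↔ ∃ ε : ℝ, 0 < ε ∧ ∀ t₀, ∃ t, t₀ ≤ t ∧
      ε * ∑ s ∈ Finset.range (t + 1), (p s : ℝ) ≤ dim K (W t)) ∧
    (Conjecture K ↔ ∀ C : ℝ, ∃ t, C * p t < dim K (W t)) ∧
    -- (3) the same for the integers up to `N`
    (∀ b, ¬ LinearIndepOn K L (I b) → ∀ N, dim K (I N) + N / b ≤ N) ∧
    (Conjecture K ↔ ∀ ε : ℝ, 0 < ε → ∀ N₀ : ℕ, ∃ N, N₀ ≤ N ∧ (1 - ε) * N ≤ (dim K (I N) : ℝ)) ∧
    -- (4) thick sets of monomials
    (∀ F : Set ℕ, (∀ n ∈ F, n ≠ 0) → Thick F → (Conjecture K ↔ LinearIndepOn K L F)) ∧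
    (∀ F : Set ℕ, UpperDensityOne F → Thick F) := by
  have hc : Conjecture K ↔ AlgebraicIndependent K Pool.Agent.Q147.HL.lg :=
    Pool.Agent.Q147.HL.conj_iff
  have h2 : Conjecture K → ∀ t, dim K (W t) = ∑ s ∈ Finset.range (t + 1), p s := fun h t =>
    Pool.Agent.Q147.HL.wt_full (hc.1 h) t
  have h3 : ¬ Conjecture K → ∃ b, ∀ t, dim K (W t) ≤ b * p t := by
    intro h
    rw [hc] at h
    obtain ⟨b, hb⟩ := Pool.Agent.Q147.HL.exists_wt h
    exact ⟨b, fun t => Pool.Agent.Q147.HL.wt_law_all hb t⟩
  have h4 : ¬ Conjecture K → ∀ ε : ℝ, 0 < ε → ∃ t₀, ∀ t, t₀ ≤ t →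
      (dim K (W t) : ℝ) ≤ ε * ∑ s ∈ Finset.range (t + 1), (p s : ℝ) := by
    intro h ε hε
    obtain ⟨b, hb⟩ := h3 h
    obtain ⟨k, hk⟩ := exists_nat_gt ((b : ℝ) / ε)
    obtain ⟨t₀, ht₀⟩ := Pool.Agent.Q147.HL.slow k
    refine ⟨t₀, fun t ht => ?_⟩
    have h5 : (k : ℝ) * p t ≤ ∑ s ∈ Finset.range (t + 1), (p s : ℝ) := by exact_mod_cast ht₀ t ht
    have h6 : (dim K (W t) : ℝ) ≤ b * p t := by exact_mod_cast hb t
    have h7 : (b : ℝ) ≤ ε * k := by
      rw [div_lt_iff₀ hε] at hk
      linarith
    have h8 : (0 : ℝ) ≤ p t := by positivity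
    calc (dim K (W t) : ℝ) ≤ b * p t := h6
      _ ≤ (ε * k) * p t := mul_le_mul_of_nonneg_right h7 h8
      _ = ε * (k * p t) := by ring
      _ ≤ _ := mul_le_mul_of_nonneg_left h5 hε.le
  refine ⟨?_, h2, h3, h4, ?_, ?_, ?_, ?_, ?_, ?_⟩
  · intro b hb t
    exact ⟨Pool.Agent.Q147.HL.wt_law_all hb t, fun ht => Pool.Agent.Q147.HL.wt_law hb ht⟩
  · constructor
    · intro h
      refine ⟨1, one_pos, fun t₀ => ⟨t₀, le_rfl, ?_⟩⟩
      rw [h2 h t₀, one_mul]
      push_cast
      exact le_rfl
    · rintro ⟨ε, hε, h⟩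
      by_contra hcon
      obtain ⟨t₀, ht₀⟩ := h4 hcon (ε / 2) (by positivity)
      obtain ⟨t, ht, h5⟩ := h t₀
      have h6 := ht₀ t ht
      have h7 : (1 : ℝ) ≤ ∑ s ∈ Finset.range (t + 1), (p s : ℝ) := by
        have h8 : (p 0 : ℝ) ≤ ∑ s ∈ Finset.range (t + 1), (p s : ℝ) :=
          Finset.single_le_sum (f := fun s => (p s : ℝ)) (fun i _ => by positivity)
            (Finset.mem_range.2 (by omega))
        have h9 : 1 ≤ p 0 := Fintype.card_pos
        have h10 : (1 : ℝ) ≤ p 0 := by exact_mod_cast h9
        linarith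
      nlinarith
  · constructor
    · intro h C
      obtain ⟨t, ht⟩ := Pool.Agent.Q147.HL.unbounded C
      refine ⟨t, ?_⟩
      rw [h2 h t]
      push_cast
      exact ht
    · intro h
      by_contra hcon
      obtain ⟨b, hb⟩ := h3 hcon
      obtain ⟨t, ht⟩ := h b
      have : ((dim K (W t) : ℕ) : ℝ) ≤ (b : ℝ) * p t := by exact_mod_cast hb t
      linarith
  · intro b hb N
    exact Pool.Agent.Q147.HL.int_law hb N
  · constructor
    · intro h ε hε N₀
      refine ⟨N₀, le_rfl, ?_⟩
      have h1 : dim K (I N₀) = N₀ := Pool.Agent.Q147.HL.int_full (hc.1 h) N₀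
      rw [h1]
      have : (0 : ℝ) ≤ ε * N₀ := by positivity
      linarith
    · intro h
      by_contra hcon
      rw [hc] at hcon
      obtain ⟨b, hb⟩ := Pool.Agent.Q147.HL.exists_int hcon
      have hb1 : 1 ≤ b := by
        by_contra hlt
        have hb0 : b = 0 := by omega
        apply hb
        have : {n : ℕ | 1 ≤ n ∧ n ≤ b} = ∅ := by
          ext n
          simp only [Set.mem_ofPred_eq, Set.mem_empty_iff_false, iff_false, not_and, not_le]
          omega
        rw [this]
        exact linearIndepOn_empty _ _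
      have hbR : (1 : ℝ) ≤ b := by exact_mod_cast hb1
      obtain ⟨N, hN0, hN⟩ := h (1 / (2 * b)) (by positivity) (4 * b)
      have h1 := Pool.Agent.Q147.HL.int_law hb N
      have h2' : (dim K (I N) : ℝ) + ((N / b : ℕ) : ℝ) ≤ N := by exact_mod_cast h1
      have h3' : (N : ℝ) < (((N / b : ℕ) : ℝ) + 1) * b := by
        have h41 := Nat.div_add_mod N b
        have h42 := Nat.mod_lt N (show b > 0 by omega)
        have h43 : N < (N / b + 1) * b := by nlinarith
        exact_mod_cast h43
      have h4 : (4 : ℝ) * b ≤ N := by exact_mod_cast hN0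
      have h5 : (N : ℝ) / b < ((N / b : ℕ) : ℝ) + 1 := by
        rw [div_lt_iff₀ (by linarith)]
        exact h3'
      have h6 : (1 - 1 / (2 * (b : ℝ))) * N = N - N / b / 2 := by
        field_simp
      rw [h6] at hN
      have h7 : (4 : ℝ) ≤ N / b := by
        rw [le_div_iff₀ (by linarith)]
        exact h4
      linarith
  · intro F hF hT
    rw [hc]
    exact Pool.Agent.Q147.HL.thick_law hF hT
  · intro F hF
    exact Pool.Agent.Q147.HL.thick_of_density hF

end Pool.Agent.Results.MP_d171e3_nt.PartitionLaw
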